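import Pool.Agent.Helper19.NF.Defs

/-!
# NF, F6: the labels of a closing time
-/

set_option autoImplicit false

namespace Pool.Agent.Helper58.NF

open Pool.Agent.Helper6.IP (cnt tm)
open Pool.Agent.Helper19.NF

variable {n m : ℕ} [NeZero m] {B Z : Type} [AddCommGroup B]
variable {x0 : Pos n m → B} {I : B → Dir m → B} {o : ℕ → B ⊕ Z}

omit [NeZero m] in
theorem ring_apply (d : Dir m) (w : Pos n m) : ring n m d w = (w.1 + (if d.1 then 1 else 0), w.2 + d.2) := rfl

omit [NeZero m] in
theorem pos_congr {c c' : ℕ → Dir m} {l : ℕ} (h : ∀ j < l, c j = c' j) : ∀ j ≤ l, pos n c j = pos n c' j := by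
  intro j
  induction j with
  | zero => intro _; rfl
  | succ j ih =>
    intro hj
    rw [pos, pos, ih (by omega), h j (by omega)]

theorem inR_of_chain {c : ℕ → Dir m} {l j : ℕ} (h : Chain x0 I o c l) (hj : j ≤ l) :
    InR x0 I o j (pos n c j) := ⟨c, fun i hi => h i (by omega), rfl⟩

theorem inR_step {l : ℕ} {w : Pos n m} {d : Dir m} (h : InR x0 I o l w)
    (hlt : tl x0 I o (l + 1) (ring n m d w) < tl x0 I o l w) : InR x0 I o (l + 1) (ring n m d w) := by
  obtain ⟨c, hc, hw⟩ := h
  have hp : ∀ j ≤ l, pos n (Function.update c l d) j = pos n c j :=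
    pos_congr (fun j hj => Function.update_of_ne (by omega) _ _)
  have hl : pos n (Function.update c l d) (l + 1) = ring n m d w := by
    rw [pos, hp l le_rfl, hw, Function.update_self]
  refine ⟨Function.update c l d, fun j hj => ?_, hl⟩
  rcases Nat.lt_or_ge j l with h | h
  · rw [hp j (by omega), hp (j + 1) (by omega)]
    exact hc j h
  · have hjl : j = l := by omega
    rw [hjl, hl, hp l le_rfl, hw]
    exact hlt

theorem inR_lt {l : ℕ} {w : Pos n m} (hl : 1 ≤ l) (h : InR x0 I o l w) : tl x0 I o l w < ⊤ := by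
  obtain ⟨c, hc, hw⟩ := h
  obtain ⟨k, rfl⟩ : ∃ k, l = k + 1 := ⟨l - 1, by omega⟩
  have h1 := hc k (by omega)
  rw [hw] at h1
  exact h1.trans_le le_top

theorem hit_of {l : ℕ} {w : Pos n m} {d : Dir m} (hl : 1 ≤ l) (hln : l < n) (hI : CF (ring n m) x0 n I)
    (h : InR x0 I o l w) (h' : ¬ InR x0 I o (l + 1) (ring n m d w)) :
    ∃ ν, Hit o (val (ring n m) x0 I (n - l) w) (val (ring n m) x0 I (n - l - 1) (ring n m d w)) ν := by
  have hlt := inR_lt hl h
  obtain ⟨t, ht⟩ : ∃ t : ℕ, tl x0 I o l w = t := by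
    obtain ⟨t, ht⟩ := ENat.ne_top_iff_exists.mp hlt.ne
    exact ⟨t, ht.symm⟩
  have ht' : tm o (Sum.inl (val (ring n m) x0 I (n - l) w)) = t := by
    rw [← ht, tl, if_neg (by omega)]
  have hfirst : ∀ j < t, o j ≠ Sum.inl (val (ring n m) x0 I (n - l) w) := by
    intro j hj hoj
    have h1 := Pool.Agent.Helper6.IP.tm_le hoj
    rw [ht'] at h1
    have h2 : t ≤ j := by exact_mod_cast h1
    omega
  refine ⟨cnt o t, t, Pool.Agent.Helper6.IP.tm_eq_nat ht', hfirst, rfl, fun j hj hoj => ?_⟩
  rcases Nat.lt_or_ge j t with hjt | hjt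
  · refine h' (inR_step h ?_)
    rw [ht, tl, if_neg (by omega), show n - (l + 1) = n - l - 1 by omega]
    refine (Pool.Agent.Helper6.IP.tm_le hoj).trans_lt ?_
    exact_mod_cast hjt
  · have hjt' : j = t := by omega
    rw [hjt', Pool.Agent.Helper6.IP.tm_eq_nat ht'] at hoj
    have h1 := (hI (n - l) (by omega) (n - l - 1) (by omega) _ _ (Sum.inl_injective hoj)).1
    omega

/-- The labels of a closing time. -/
theorem exists_label (_hn : 1 ≤ n) (x0 : Pos n m → B) (I : B → Dir m → B) (hI : CF (ring n m) x0 n I)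
    (o : ℕ → B ⊕ Z) (T : ℕ) (hT : ∀ t, (∃ b, o t = Sum.inl b ∧ ∀ j < t, o j ≠ Sum.inl b) → cnt o t < T)
    (hR : ∀ w, ¬ InR x0 I o n w) (c : ℕ → Dir m) (hc : Chain x0 I o c (n - 1)) :
    ∃ (L : Fin (n - 1) → Label n m) (num : Idx L → ℕ), Valid L ∧ Fits L T num ∧ Typ x0 I o L num := by
  classical
  -- for each level the second part of the label
  have key : ∀ a : Fin (n - 1), ∃ y : Dir m ⊕ (Fin n × ZMod m),
      match y with
      | .inl d => ¬ InR x0 I o (a.val + 1 + 1) (ring n m d (pos n c (a.val + 1)))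
      | .inr z => 1 ≤ z.1.val ∧ a.val + 1 + z.1.val < n ∧
          (∀ t, InR x0 I o (a.val + 1 + z.1.val) ((pos n c (a.val + 1)).1 +
            (if (!(c (a.val + 1)).1) then (z.1.val : ZMod (n + 1)) else 0), t)) ∧
          ¬ InR x0 I o (a.val + 1 + z.1.val + 1) ((pos n c (a.val + 1)).1 +
            (if (!(c (a.val + 1)).1) then ((z.1.val + 1 : ℕ) : ZMod (n + 1)) else 0), z.2) := by
    intro a
    have ha := a.isLt
    by_cases h2 : ∃ d, ¬ InR x0 I o (a.val + 1 + 1) (ring n m d (pos n c (a.val + 1)))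
    · obtain ⟨d, hd⟩ := h2
      exact ⟨Sum.inl d, hd⟩
    · push Not at h2
      by_contra hcon
      push Not at hcon
      set s : Bool := !(c (a.val + 1)).1 with hs
      have hfull : ∀ i : ℕ, 1 ≤ i → a.val + 1 + i ≤ n → ∀ t, InR x0 I o (a.val + 1 + i)
          ((pos n c (a.val + 1)).1 + (if s then (i : ZMod (n + 1)) else 0), t) := by
        intro i hi
        induction i, hi using Nat.le_induction with
        | base =>
          intro _ t
          have h3 := h2 (s, t - (pos n c (a.val + 1)).2)
          rw [ring_apply] at h3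
          simpa using h3
        | succ i hi ih =>
          intro hin t
          by_contra hno
          have h3 := hcon (Sum.inr (⟨i, by omega⟩, t))
          simp only at h3
          exact h3 ⟨hi, by omega, ih (by omega), hno⟩
      exact hR _ (by
        have h4 := hfull (n - (a.val + 1)) (by omega) (by omega) 0
        rw [show a.val + 1 + (n - (a.val + 1)) = n by omega] at h4
        exact h4)
  choose y hy using key
  set L : Fin (n - 1) → Label n m := fun a => (c a.val, y a) with hL
  have hdirs : ∀ j < n - 1, dirs L j = c j := by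
    intro j hj
    rw [dirs, dif_pos hj]
  have hpos : ∀ a : Fin (n - 1), pos n (dirs L) (a.val + 1) = pos n c (a.val + 1) := by
    intro a
    have ha := a.isLt
    exact pos_congr (l := n - 1) hdirs _ (by omega)
  -- the hits
  have hhit : ∀ x : Idx L, ∃ ν, Hit o (val (ring n m) x0 I (n - lev L x.1) (pst L x.1 x.2.1))
      (val (ring n m) x0 I (n - lev L x.1 - 1) (ring n m (slt L x.1 x.2.1) (pst L x.1 x.2.1))) ν := by
    rintro ⟨a, t, ht⟩
    have ha := a.isLt
    have hya := hy a
    rcases hyy : y a with d | z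
    · rw [hyy] at hya
      have hL2 : (L a).2 = Sum.inl d := hyy
      have e1 : lev L a = a.val + 1 := by simp [lev, hL2]
      have e2 : pst L a t = pos n c (a.val + 1) := by simp [pst, hL2, hpos a]
      have e3 : slt L a t = d := by simp [slt, hL2]
      simp only [e1, e2, e3]
      exact hit_of (by omega) (by omega) hI (inR_of_chain hc (by omega)) hya
    · rw [hyy] at hya
      obtain ⟨h1, h2, h3, h4⟩ := hya
      have hL2 : (L a).2 = Sum.inr z := hyy
      have e0 : oth L a = !(c (a.val + 1)).1 := by rw [oth, hdirs _ (by omega)]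
      have e1 : lev L a = a.val + 1 + z.1.val := by simp [lev, hL2]
      have e2 : pst L a t = ((pos n c (a.val + 1)).1 +
            (if (!(c (a.val + 1)).1) then (z.1.val : ZMod (n + 1)) else 0), t) := by
        simp only [pst, hL2, hpos a, e0]
      have e3 : slt L a t = (!(c (a.val + 1)).1, z.2 - t) := by simp only [slt, hL2, e0]
      simp only [e1, e2, e3]
      refine hit_of (by omega) (by omega) hI (h3 t) ?_
      have e4 : ring n m (!(c (a.val + 1)).1, z.2 - t) ((pos n c (a.val + 1)).1 +
            (if (!(c (a.val + 1)).1) then (z.1.val : ZMod (n + 1)) else 0), t) = ((pos n c (a.val + 1)).1 +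
            (if (!(c (a.val + 1)).1) then ((z.1.val + 1 : ℕ) : ZMod (n + 1)) else 0), z.2) := by
        rw [ring_apply]
        refine Prod.ext ?_ ?_
        · by_cases hb : (!(c (a.val + 1)).1) = true
          · simp only [hb, if_true]
            push_cast
            ring
          · simp only [hb]
            simp
        · simp
      rw [e4]
      exact h4
  choose num hnum using hhit
  refine ⟨L, num, ?_, ⟨?_, ?_⟩, hnum⟩
  · intro a
    have hya := hy a
    rcases hyy : y a with d | z
    · have hL2 : (L a).2 = Sum.inl d := hyy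
      simp only [hL2]
    · rw [hyy] at hya
      have hL2 : (L a).2 = Sum.inr z := hyy
      rw [hL2]
      exact ⟨hya.1, hya.2.1⟩
  · intro x
    obtain ⟨t, h1, h2, h3, h4⟩ := hnum x
    rw [← h3]
    exact hT t ⟨_, h1, h2⟩
  · intro x x' hx hx' hlt
    obtain ⟨t, h1, h2, h3, h4⟩ := hnum x
    obtain ⟨t', h1', h2', h3', h4'⟩ := hnum x'
    have hlev : ∀ x : Idx L, (L x.1).2.isLeft → ∀ t : ℕ,
        tm o (Sum.inl (val (ring n m) x0 I (n - lev L x.1) (pst L x.1 x.2.1))) = t →
        tl x0 I o (x.1.val + 1) (pos n c (x.1.val + 1)) = t := by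
      intro x hx t ht
      obtain ⟨d, hd⟩ := Sum.isLeft_iff.mp hx
      have e1 : lev L x.1 = x.1.val + 1 := by simp [lev, hd]
      have e2 : pst L x.1 x.2.1 = pos n c (x.1.val + 1) := by simp [pst, hd, hpos x.1]
      rw [tl, if_neg (by omega), ← ht, e1, e2]
    have e1 := hlev x hx t (Pool.Agent.Helper6.IP.tm_eq h1 h2)
    have e2 := hlev x' hx' t' (Pool.Agent.Helper6.IP.tm_eq h1' h2')
    -- the times decrease along the chain
    have hmono : ∀ k, ∀ j, 1 ≤ j → j + k ≤ n - 1 → 1 ≤ k →
        tl x0 I o (j + k) (pos n c (j + k)) < tl x0 I o j (pos n c j) := by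
      intro k
      induction k with
      | zero => intro j _ _ h; omega
      | succ k ih =>
        intro j hj hjk _
        rcases Nat.eq_zero_or_pos k with rfl | hk
        · exact hc j (by omega)
        · exact (hc (j + k) (by omega)).trans (ih j hj (by omega) hk)
    have hx'1 := x'.1.isLt
    have hlt' : x.1.val < x'.1.val := hlt
    have h5 := hmono (x'.1.val - x.1.val) (x.1.val + 1) (by omega) (by omega) (by omega)
    rw [show x.1.val + 1 + (x'.1.val - x.1.val) = x'.1.val + 1 by omega, e1, e2] at h5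
    have h6 : t' < t := by exact_mod_cast h5
    rw [← h3, ← h3']
    exact Pool.Agent.Helper6.IP.cnt_lt h6 h1' h2'

end Pool.Agent.Helper58.NF
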