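import Mathlib

/-!
# NF: the closing logic (pure combinatorics)

Nodes are pairs `(a, b)` of natural numbers, the root is `(0, 0)`, the depth is `a + b`, the nodes of the given row
are those of depth `n`; a fine node is a node with a letter in `Fin m`. `th v t` is the time of the first query of the
cell of the letter `t` of `v` (at least `E` if there is none).
-/

set_option autoImplicit false

namespace Pool.Agent.Helper58.NF

/-- The two lower neighbours of a node. -/
def ch (v : ℕ × ℕ) (s : Bool) : ℕ × ℕ := if s then (v.1 + 1, v.2) else (v.1, v.2 + 1)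

/-- The node reached by `l` steps in the direction `s`. -/
def side (v : ℕ × ℕ) (s : Bool) (l : ℕ) : ℕ × ℕ := if s then (v.1 + l, v.2) else (v.1, v.2 + l)

/-- The nodes of the path with the directions `dir`. -/
def pth (dir : ℕ → Bool) : ℕ → ℕ × ℕ
  | 0 => (0, 0)
  | j + 1 => ch (pth dir j) (dir j)

theorem ch_sum (v : ℕ × ℕ) (s : Bool) : (ch v s).1 + (ch v s).2 = v.1 + v.2 + 1 := by
  cases s <;> simp [ch] <;> omega

theorem side_sum (v : ℕ × ℕ) (s : Bool) (l : ℕ) : (side v s l).1 + (side v s l).2 = v.1 + v.2 + l := by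
  cases s <;> simp [side] <;> omega

theorem side_zero (v : ℕ × ℕ) (s : Bool) : side v s 0 = v := by
  cases s <;> simp [side]

theorem side_one (v : ℕ × ℕ) (s : Bool) : side v s 1 = ch v s := by
  cases s <;> simp [side, ch]

theorem ch_side (v : ℕ × ℕ) (s : Bool) (l : ℕ) : ch (side v s l) s = side v s (l + 1) := by
  cases s <;> simp [side, ch] <;> omega

theorem pth_sum (dir : ℕ → Bool) (j : ℕ) : (pth dir j).1 + (pth dir j).2 = j := by
  induction j with
  | zero => rfl
  | succ j ih => rw [pth, ch_sum, ih]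

theorem pth_mono (dir : ℕ → Bool) {i j : ℕ} (h : i ≤ j) :
    (pth dir i).1 ≤ (pth dir j).1 ∧ (pth dir i).2 ≤ (pth dir j).2 := by
  induction j, h using Nat.le_induction with
  | base => exact ⟨le_rfl, le_rfl⟩
  | succ j _ ih =>
    rw [pth]
    cases dir j <;> simp [ch] <;> omega

/-- Side nodes are not on the path. -/
theorem side_ne_pth (dir : ℕ → Bool) (j l i : ℕ) (hl : 1 ≤ l) : side (pth dir j) (!dir j) l ≠ pth dir i := by
  intro h
  have h1 := congrArg (fun v : ℕ × ℕ => v.1 + v.2) h
  simp only [side_sum, pth_sum] at h1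
  have h2 := pth_mono dir (show j + 1 ≤ i by omega)
  rw [← h, pth] at h2
  cases hd : dir j <;> simp [hd, ch, side] at h2

/-- Side nodes of different nodes of the path are different. -/
theorem side_inj (dir : ℕ → Bool) {j l j' l' : ℕ} (hj : j < j') :
    side (pth dir j) (!dir j) l ≠ side (pth dir j') (!dir j') l' := by
  intro h
  have h2 := pth_mono dir (show j + 1 ≤ j' by omega)
  rw [pth] at h2
  have h3 : (pth dir j').1 ≤ (side (pth dir j') (!dir j') l').1 ∧
      (pth dir j').2 ≤ (side (pth dir j') (!dir j') l').2 := by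
    cases dir j' <;> simp [side]
  rw [← h] at h3
  cases hd : dir j <;> simp [hd, ch, side] at h2 h3 <;> omega

variable {m : ℕ}

/-- The letters which are reached from the root through unblocked slots. -/
inductive Rch (n : ℕ) (th : ℕ × ℕ → Fin m → ℕ) (E : ℕ) : ℕ × ℕ → Fin m → Prop
  | root (s : Bool) (t : Fin m) : th (ch (0, 0) s) t < E → Rch n th E (ch (0, 0) s) t
  | step (v : ℕ × ℕ) (t : Fin m) (s : Bool) (t' : Fin m) : Rch n th E v t → v.1 + v.2 < n →
      th (ch v s) t' < th v t → Rch n th E (ch v s) t'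

theorem Rch.lt {n : ℕ} {th : ℕ × ℕ → Fin m → ℕ} {E : ℕ} {v : ℕ × ℕ} {t : Fin m} (h : Rch n th E v t) :
    th v t < E := by
  induction h with
  | root s t h => exact h
  | step v t s t' _ _ h ih => exact h.trans ih

/-- An open path: the letters `t 1, ..., t n` on the path are queried from bottom to top. -/
def Opn (n : ℕ) (th : ℕ × ℕ → Fin m → ℕ) (E : ℕ) (dir : ℕ → Bool) (t : ℕ → Fin m) : Prop :=
  th (pth dir 1) (t 1) < E ∧ ∀ j, 1 ≤ j → j + 1 ≤ n → th (pth dir (j + 1)) (t (j + 1)) < th (pth dir j) (t j)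

theorem rch_pth {n : ℕ} {th : ℕ × ℕ → Fin m → ℕ} {E : ℕ} {dir : ℕ → Bool} {t : ℕ → Fin m}
    (h : th (pth dir 1) (t 1) < E)
    {k : ℕ} (hk : k ≤ n) (h1 : ∀ j, 1 ≤ j → j + 1 ≤ k → th (pth dir (j + 1)) (t (j + 1)) < th (pth dir j) (t j)) :
    ∀ j, 1 ≤ j → j ≤ k → Rch n th E (pth dir j) (t j) := by
  intro j hj
  induction j, hj using Nat.le_induction with
  | base => intro _; exact Rch.root _ _ h
  | succ j hj ih =>
    intro hjk
    refine Rch.step _ (t j) _ _ (ih (by omega)) ?_ (h1 j hj hjk)
    rw [pth_sum]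
    omega

/-- A reached letter is the end of a path. -/
theorem exists_path_of_rch {n : ℕ} {th : ℕ × ℕ → Fin m → ℕ} {E : ℕ} {v : ℕ × ℕ} {x : Fin m}
    (h : Rch n th E v x) : ∃ (dir : ℕ → Bool) (t : ℕ → Fin m), pth dir (v.1 + v.2) = v ∧ t (v.1 + v.2) = x ∧
      th (pth dir 1) (t 1) < E ∧
      ∀ j, 1 ≤ j → j + 1 ≤ v.1 + v.2 → th (pth dir (j + 1)) (t (j + 1)) < th (pth dir j) (t j) := by
  induction h with
  | root s x h =>
    refine ⟨fun _ => s, fun _ => x, ?_, rfl, h, ?_⟩
    · rw [ch_sum]; rfl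
    · intro j hj hj1
      rw [ch_sum] at hj1
      simp only [] at hj1
      omega
  | step v x s x' hr hv hlt ih =>
    obtain ⟨dir, t, h1, h2, h3, h4⟩ := ih
    set d := v.1 + v.2 with hd
    have hd1 : 1 ≤ d := by
      rcases hr with ⟨s, t, _⟩ | ⟨w, t, s, _, _, _, _⟩
      · rw [hd, ch_sum]; omega
      · rw [hd, ch_sum]; omega
    have hp : ∀ (s' : Bool) (j : ℕ), j ≤ d → pth (Function.update dir d s') j = pth dir j := by
      intro s' j
      induction j with
      | zero => intro _; rfl
      | succ j ihj =>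
        intro hj
        rw [pth, pth, ihj (by omega), Function.update_of_ne (by omega)]
    have hpd : pth (Function.update dir d s) (d + 1) = ch v s := by
      rw [pth, hp s d le_rfl, h1, Function.update_self]
    have ht : ∀ j, j ≤ d → Function.update t (d + 1) x' j = t j := by
      intro j hj
      rw [Function.update_of_ne (by omega)]
    refine ⟨Function.update dir d s, Function.update t (d + 1) x', ?_, ?_, ?_, ?_⟩
    · rw [ch_sum, ← hd, hpd]
    · rw [ch_sum, ← hd, Function.update_self]
    · rw [hp s 1 hd1, ht 1 hd1]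
      exact h3
    · intro j hj hj1
      rw [ch_sum, ← hd] at hj1
      rcases Nat.lt_or_ge j d with h | h
      · rw [hp s _ h, hp s j (by omega), ht _ h, ht j (by omega)]
        exact h4 j hj h
      · have hjd : j = d := by omega
        rw [hjd, hpd, hp s d le_rfl, Function.update_self, ht d le_rfl, h1, h2]
        exact hlt

/-- No open path means that no letter of depth `n` is reached. -/
theorem not_rch_of_no_open {n : ℕ} {th : ℕ × ℕ → Fin m → ℕ} {E : ℕ} (h : ∀ dir t, ¬ Opn n th E dir t)
    {v : ℕ × ℕ} {x : Fin m} (hv : v.1 + v.2 = n) : ¬ Rch n th E v x := by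
  intro hr
  obtain ⟨dir, t, _, _, h3, h4⟩ := exists_path_of_rch hr
  rw [hv] at h4
  exact h dir t ⟨h3, h4⟩

/-- The closing lemma. -/
theorem closing {n : ℕ} {th : ℕ × ℕ → Fin m → ℕ} {E : ℕ} (hno : ∀ dir t, ¬ Opn n th E dir t)
    (dir : ℕ → Bool) (t : ℕ → Fin m) (h0 : th (pth dir 1) (t 1) < E)
    (h1 : ∀ j, 1 ≤ j → j + 1 < n → th (pth dir (j + 1)) (t (j + 1)) < th (pth dir j) (t j)) (j : ℕ) (hj : 1 ≤ j)
    (hjn : j < n) :
    (∃ s x, th (pth dir j) (t j) ≤ th (ch (pth dir j) s) x) ∨
      ∃ l s x, 1 ≤ l ∧ j + l < n ∧ ∀ r, th (side (pth dir j) (!dir j) l) r < E ∧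
        th (side (pth dir j) (!dir j) l) r ≤ th (ch (side (pth dir j) (!dir j) l) s) x := by
  have hr : ∀ i, 1 ≤ i → i < n → Rch n th E (pth dir i) (t i) := fun i hi hin =>
    rch_pth h0 (k := n - 1) (by omega) (fun j hj hj1 => h1 j hj (by omega)) i hi (by omega)
  by_contra hcon
  rw [not_or] at hcon
  obtain ⟨hA, hB⟩ := hcon
  push Not at hA hB
  have hfull : ∀ l, 1 ≤ l → j + l ≤ n → ∀ r, Rch n th E (side (pth dir j) (!dir j) l) r := by
    intro l hl
    induction l, hl using Nat.le_induction with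
    | base =>
      intro _ r
      rw [side_one]
      refine Rch.step _ (t j) _ _ (hr j hj hjn) ?_ (hA _ _)
      rw [pth_sum]
      exact hjn
    | succ l hl ih =>
      intro hln r
      have ih' := ih (by omega)
      rw [← ch_side]
      obtain ⟨q, hq⟩ := hB l (!dir j) r hl (by omega)
      refine Rch.step _ q _ _ (ih' q) ?_ (hq (ih' q).lt)
      rw [side_sum, pth_sum]
      omega
  refine not_rch_of_no_open hno (v := side (pth dir j) (!dir j) (n - j)) (x := t j) ?_
    (hfull (n - j) (by omega) (by omega) (t j))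
  rw [side_sum, pth_sum]
  omega

/-- The first open path: if the letters of the children of the root are queried and no node whose letters are all
queried is complete before one of its children, then there is an open path. -/
theorem exists_open {n : ℕ} (hm : 0 < m) {th : ℕ × ℕ → Fin m → ℕ} {E : ℕ}
    (hroot : ∀ s x, th (ch (0, 0) s) x < E)
    (hfull : ∀ v : ℕ × ℕ, 1 ≤ v.1 + v.2 → v.1 + v.2 < n → (∀ x, th v x < E) → ∀ s x, ∃ y, th (ch v s) x < th v y) :
    ∃ dir t, Opn n th E dir t := by
  classical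
  have : Nonempty (Fin m) := ⟨⟨0, hm⟩⟩
  have hmax : ∀ v : ℕ × ℕ, ∃ y, ∀ x, th v x ≤ th v y := fun v => Finite.exists_max (th v)
  choose L hL using hmax
  let dir : ℕ → Bool := fun _ => true
  have hF : ∀ j, 1 ≤ j → j ≤ n → ∀ x, th (pth dir j) x < E := by
    intro j hj
    induction j, hj using Nat.le_induction with
    | base => intro _ x; exact hroot _ x
    | succ j hj ih =>
      intro hjn x
      obtain ⟨y, hy⟩ := hfull (pth dir j) (by rw [pth_sum]; exact hj) (by rw [pth_sum]; omega) (ih (by omega))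
        (dir j) x
      exact hy.trans (ih (by omega) y)
  refine ⟨dir, fun j => L (pth dir j), ?_⟩
  rcases Nat.eq_zero_or_pos n with rfl | hn
  · exact ⟨hroot _ _, fun j hj hj1 => by omega⟩
  · refine ⟨hF 1 le_rfl hn _, fun j hj hj1 => ?_⟩
    obtain ⟨y, hy⟩ := hfull (pth dir j) (by rw [pth_sum]; exact hj) (by rw [pth_sum]; omega) (hF j hj (by omega))
      (dir j) (L (pth dir (j + 1)))
    exact hy.trans_le (hL _ _)

end Pool.Agent.Helper58.NF
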